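import Pool.Agent.H709Q.Meas
import Pool.Agent.Y393.HC.Conv

/-! The mean number of closed orbits of quadratic systems over a convex body in the space of
coefficients. -/

open Real Set MeasureTheory Topology Filter
open scoped ENNReal

namespace Pool.Agent.Y393.HQ

noncomputable section

open Pool.Agent
open Pool.Agent.H709R2 (rot measurePreserving_rot)
open Pool.Agent.H709Q (NQ rc measurable_NQ continuous_rc main_single)
open Pool.Agent.Y393.HC (disc mem_disc en_smul en_rot_sub rot_back)
open Pool.Agent.TH275.RF (en en_nonneg)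

/-- the space of coefficients -/
abbrev E : Type := Fin 6 → ℝ × ℝ

lemma mp_rc (α : ℝ) : MeasurePreserving (rc α : E → E) volume volume :=
  volume_preserving_pi fun _ => measurePreserving_rot α

/-- averaging over the angles -/
lemma avg {A B : Set E} (hA : MeasurableSet A) (hB : MeasurableSet B) {δ : ℝ} (hδ : δ ≤ 2 * π)
    (h : ∀ α ∈ Ioo 0 δ, ∀ c ∈ A, rc (-α) c ∈ B) :
    ENNReal.ofReal δ * ∫⁻ c in A, NQ c ≤ ENNReal.ofReal (1544 * 10 ^ 6) * volume B := by
  have hm : ∀ α, Measurable (rc α) := fun α =>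
    (continuous_rc.comp (continuous_const.prodMk continuous_id)).measurable
  have hmeas : Measurable (Function.uncurry fun (α : ℝ) (c : E) => NQ (rc α c)) :=
    measurable_NQ.comp continuous_rc.measurable
  have key : ∀ α ∈ Ioo 0 δ, ∫⁻ c in A, NQ c ≤ ∫⁻ c in B, NQ (rc α c) := by
    intro α hα
    set F : E → ℝ≥0∞ := fun c => B.indicator 1 (rc (-α) c) * NQ c with hF
    have hFm : Measurable F := ((measurable_one.indicator hB).comp (hm (-α))).mul measurable_NQ
    have h1 := (mp_rc α).lintegral_comp hFm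
    have h2 : ∀ c, F (rc α c) = B.indicator (fun c => NQ (rc α c)) c := by
      intro c
      simp only [hF]
      have e : rc (-α) (rc α c) = c := by
        funext m
        exact rot_back α (c m)
      rw [e]
      by_cases hc : c ∈ B
      · rw [indicator_of_mem hc, indicator_of_mem hc, Pi.one_apply, one_mul]
      · rw [indicator_of_notMem hc, indicator_of_notMem hc, zero_mul]
    rw [← lintegral_indicator hA, ← lintegral_indicator hB, ← lintegral_congr h2, h1]
    refine lintegral_mono fun c => ?_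
    by_cases hc : c ∈ A
    · have hc' : rc (-α) c ∈ B := h α hα c hc
      simp only [hF]
      rw [indicator_of_mem hc, indicator_of_mem hc', Pi.one_apply, one_mul]
    · rw [indicator_of_notMem hc]
      exact zero_le
  calc ENNReal.ofReal δ * ∫⁻ c in A, NQ c
      = ∫⁻ _ in Ioo 0 δ, ∫⁻ c in A, NQ c := by
        rw [lintegral_const, Measure.restrict_apply_univ, Real.volume_Ioo, sub_zero, mul_comm]
    _ ≤ ∫⁻ α in Ioo 0 δ, ∫⁻ c in B, NQ (rc α c) :=
        setLIntegral_mono' measurableSet_Ioo key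
    _ = ∫⁻ c in B, ∫⁻ α in Ioo 0 δ, NQ (rc α c) := by
        rw [lintegral_lintegral_swap (μ := volume.restrict (Ioo 0 δ))
          (ν := volume.restrict B)
          (f := fun (α : ℝ) (c : E) => NQ (rc α c)) hmeas.aemeasurable]
    _ ≤ ∫⁻ _c in B, ENNReal.ofReal (1544 * 10 ^ 6) := by
        refine lintegral_mono fun c => ?_
        have hsub : Ioo 0 δ ⊆ Ioc 0 (2 * π) := fun x hx => ⟨hx.1, hx.2.le.trans hδ⟩
        exact (lintegral_mono_set hsub).trans (main_single c).2
    _ = ENNReal.ofReal (1544 * 10 ^ 6) * volume B := by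
        rw [lintegral_const, Measure.restrict_apply_univ]

/-- the dilation with centre `p` -/
def dil (p : E) (t : ℝ) (A : Set E) : Set E := AffineMap.homothety p (1 + t) '' A

lemma hom_apply (p u : E) (t : ℝ) :
    AffineMap.homothety p (1 + t) u = (1 + t) • (u - p) + p := by
  rw [AffineMap.homothety_apply]
  rfl

lemma volume_dil (p : E) {t : ℝ} (ht : 0 ≤ t) (A : Set E) :
    volume (dil p t A) = ENNReal.ofReal ((1 + t) ^ 12) * volume A := by
  have h12 : Module.finrank ℝ E = 12 := by
    unfold E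
    rw [Module.finrank_pi_fintype]
    simp
  unfold dil
  rw [Measure.addHaar_image_homothety, h12, abs_of_nonneg (by positivity)]

lemma mem_dil {K : Set E} (hK : Convex ℝ K) {p : E} {r : Fin 6 → ℝ} {t : ℝ} (hr : ∀ i, 0 < r i)
    (hd : ∀ c : E, (∀ i, c i ∈ disc (p i) (r i)) → c ∈ K) (ht : 0 < t) {v w : E} (hv : v ∈ K)
    (hw : ∀ i, en (w i) ≤ t * r i) : v + w ∈ dil p t K := by
  have h1 : p + t⁻¹ • w ∈ K := by
    apply hd
    intro i
    rw [mem_disc (hr i).le, Pi.add_apply, Pi.smul_apply, add_sub_cancel_left, en_smul,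
      abs_of_pos (inv_pos.2 ht), inv_mul_le_iff₀ ht]
    exact hw i
  have h2 : (1 / (1 + t)) • v + (t / (1 + t)) • (p + t⁻¹ • w) ∈ K := by
    refine hK hv h1 (by positivity) (by positivity) ?_
    field_simp
  refine ⟨_, h2, ?_⟩
  rw [hom_apply]
  have h3 : (1 + t) ≠ 0 := by positivity
  have h4 : t ≠ 0 := ht.ne'
  ext i
  · simp only [Pi.add_apply, Pi.sub_apply, Pi.smul_apply, Prod.smul_fst, Prod.fst_add,
      Prod.fst_sub, smul_eq_mul]
    field_simp
    ring
  · simp only [Pi.add_apply, Pi.sub_apply, Pi.smul_apply, Prod.smul_snd, Prod.snd_add,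
      Prod.snd_sub, smul_eq_mul]
    field_simp
    ring

lemma isCompact_of {K : Set E} (hA : IsClosed K) {R : Fin 6 → ℝ} (hR : ∀ i, 0 ≤ R i)
    (h : ∀ c ∈ K, ∀ i, c i ∈ disc 0 (R i)) : IsCompact K := by
  have h1 : IsCompact (univ.pi fun i => disc 0 (R i)) :=
    isCompact_univ_pi fun i => Y393.HC.isCompact_of (by
      have : disc (0 : ℝ × ℝ) (R i) = {v | (v.1 - (0 : ℝ × ℝ).1) ^ 2 + (v.2 - (0 : ℝ × ℝ).2) ^ 2 ≤
        R i ^ 2} := rfl
      rw [this]
      exact isClosed_le (by fun_prop) continuous_const) (hR i) subset_rfl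
  exact h1.of_isClosed_subset hA fun c hc => by
    rw [mem_univ_pi]
    exact h c hc

lemma isCompact_dil {K : Set E} (hA : IsCompact K) (p : E) (t : ℝ) : IsCompact (dil p t K) := by
  refine hA.image ?_
  have : (AffineMap.homothety p (1 + t) : E → E) = fun u => (1 + t) • (u - p) + p := by
    funext u
    exact hom_apply p u t
  rw [this]
  fun_prop

theorem mean_body (K : Set E) (p : E) (r R : Fin 6 → ℝ) (a : ℝ) (hcl : IsClosed K)
    (hK : Convex ℝ K) (hr : ∀ i, 0 < r i) (hR : ∀ i, 0 ≤ R i) (ha : ∀ i, R i ≤ a * r i)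
    (hin : ∀ c : E, (∀ i, c i ∈ disc (p i) (r i)) → c ∈ K)
    (hout : ∀ c ∈ K, ∀ i, c i ∈ disc 0 (R i)) :
    ∫⁻ c in K, NQ c ≤ ENNReal.ofReal (5 * 10 ^ 10 * a) * volume K := by
  -- `1 ≤ a`
  have hpK : p ∈ K := hin p fun i => Y393.HC.mem_disc_self _ _
  have hrR : r 0 ≤ R 0 := by
    -- the point `p` moved by `r 0` away from the origin
    have h1 := hout p hpK 0
    rw [mem_disc (hR 0), sub_zero] at h1
    by_contra hcon
    push Not at hcon
    have h2 : (fun i => p i + (if i = 0 then ((r 0 : ℝ), (0 : ℝ)) else 0)) ∈ K := by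
      apply hin
      intro i
      rw [mem_disc (hr i).le, add_sub_cancel_left]
      split_ifs with h
      · subst h
        unfold en
        simp [Real.sqrt_sq (hr 0).le]
      · have : en (0 : ℝ × ℝ) = 0 := by simp [en]
        rw [this]
        exact (hr i).le
    have h3 : (fun i => p i + (if i = 0 then (-(r 0 : ℝ), (0 : ℝ)) else 0)) ∈ K := by
      apply hin
      intro i
      rw [mem_disc (hr i).le, add_sub_cancel_left]
      split_ifs with h
      · subst h
        unfold en
        simp [Real.sqrt_sq (hr 0).le]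
      · have : en (0 : ℝ × ℝ) = 0 := by simp [en]
        rw [this]
        exact (hr i).le
    have h4 := hout _ h2 0
    have h5 := hout _ h3 0
    simp only [if_true, disc, mem_ofPred_eq, Prod.fst_add, Prod.snd_add, Prod.fst_zero,
      Prod.snd_zero, sub_zero, add_zero] at h4 h5
    have h6 : R 0 ^ 2 < r 0 ^ 2 := pow_lt_pow_left₀ hcon (hR 0) (by norm_num)
    nlinarith [sq_nonneg (p 0).1, sq_nonneg (p 0).2]
  have ha1 : 1 ≤ a := by
    have h1 : r 0 * 1 ≤ r 0 * a := by linarith [ha 0, mul_comm a (r 0)]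
    exact le_of_mul_le_mul_left h1 (hr 0)
  have ha0 : 0 < a := by linarith
  have hKc : IsCompact K := isCompact_of hcl hR hout
  set t : ℝ := 1 / 12 with ht
  have ht0 : 0 < t := by rw [ht]; norm_num
  set B := dil p t K with hB
  have hBm : MeasurableSet B := (isCompact_dil hKc p t).measurableSet
  have hδ : t / a ≤ 2 * π := by
    have h1 : t / a ≤ t := div_le_self ht0.le ha1
    have := Real.pi_gt_three
    rw [ht] at h1 ⊢
    linarith
  have hrot : ∀ α ∈ Ioo 0 (t / a), ∀ c ∈ K, rc (-α) c ∈ B := by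
    intro α hα c hc
    have h1 : rc (-α) c = c + (rc (-α) c - c) := by abel
    rw [h1]
    refine mem_dil hK hr hin ht0 hc fun i => ?_
    have h2 : (rc (-α) c - c) i = rot (-α) (c i) - c i := rfl
    rw [h2]
    refine (en_rot_sub (-α) (c i)).trans ?_
    have h3 := hout c hc i
    rw [mem_disc (hR i), sub_zero] at h3
    rw [abs_neg, abs_of_pos hα.1]
    calc α * en (c i) ≤ (t / a) * (a * r i) :=
          mul_le_mul hα.2.le (h3.trans (ha i)) (en_nonneg _) (by positivity)
      _ = t * r i := by field_simp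
  have h1 := avg hKc.measurableSet hBm hδ hrot
  rw [hB, volume_dil p ht0.le] at h1
  have hδ0 : 0 < t / a := by positivity
  have h2 : ∫⁻ c in K, NQ c ≤ (ENNReal.ofReal (1544 * 10 ^ 6) *
      (ENNReal.ofReal ((1 + t) ^ 12) * volume K)) / ENNReal.ofReal (t / a) := by
    rw [ENNReal.le_div_iff_mul_le (Or.inl (ENNReal.ofReal_pos.2 hδ0).ne')
      (Or.inl ENNReal.ofReal_ne_top), mul_comm]
    exact h1
  refine h2.trans ?_
  rw [← mul_assoc, ← ENNReal.ofReal_mul (by norm_num), mul_comm, mul_div_assoc,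
    ← ENNReal.ofReal_div_of_pos hδ0, mul_comm]
  gcongr
  rw [div_le_iff₀ hδ0, ht]
  have : 5 * 10 ^ 10 * a * (1 / 12 / a) = 5 * 10 ^ 10 / 12 := by field_simp
  rw [this]
  norm_num

end

end Pool.Agent.Y393.HQ
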